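import Pool.Agent.K6.H16.AL.Stm
import Mathlib

set_option autoImplicit false

open Finset

namespace Pool.Agent.K6.H16.AL.ENT

lemma ent_finset {α : Type} (p : α → ℝ) (U : Finset α) (hp : ∀ i, 0 ≤ p i) :
    ∑ i ∈ U, Real.negMulLog (p i) ≤
      (∑ i ∈ U, p i) * Real.log (U.card : ℝ) + Real.negMulLog (∑ i ∈ U, p i) := by
  rcases U.eq_empty_or_nonempty with rfl | hU
  · simp
  have hc : (0 : ℝ) < U.card := by exact_mod_cast hU.card_pos
  set w := ∑ i ∈ U, p i with hw
  have hw0 : 0 ≤ w := Finset.sum_nonneg fun i _ => hp i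
  have hJ := Real.concaveOn_negMulLog.le_map_sum (t := U) (w := fun _ => (U.card : ℝ)⁻¹) (p := p)
    (fun _ _ => by positivity) (by simp [hc.ne']) (fun i _ => hp i)
  simp only [smul_eq_mul, ← Finset.mul_sum] at hJ
  rw [← hw] at hJ
  have h1 : ∑ i ∈ U, Real.negMulLog (p i) ≤ U.card * Real.negMulLog ((U.card : ℝ)⁻¹ * w) := by
    have := mul_le_mul_of_nonneg_left hJ hc.le
    rwa [← mul_assoc, mul_inv_cancel₀ hc.ne', one_mul] at this
  refine h1.trans (le_of_eq ?_)
  rw [Real.negMulLog_mul]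
  simp only [Real.negMulLog]
  rw [Real.log_inv]
  field_simp

theorem ent_le : S_ENT := by
  intro α _ _ p T r δ hp h1 hT hr hδ hδ'
  have hsplit : ∑ i ∈ T, p i + ∑ i ∈ Tᶜ, p i = 1 := by
    rw [Finset.sum_add_sum_compl, h1]
  set w := ∑ i ∈ T, p i with hw
  set w' := ∑ i ∈ Tᶜ, p i with hw'
  have hw0 : 0 ≤ w := Finset.sum_nonneg fun i _ => hp i
  have hw'0 : 0 ≤ w' := Finset.sum_nonneg fun i _ => hp i
  have hw1 : w ≤ 1 := by linarith
  have hlr : 0 ≤ Real.log (r : ℝ) := Real.log_nonneg (by exact_mod_cast hr)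
  have ha : w * Real.log (T.card : ℝ) ≤ Real.log r := by
    have h2 : Real.log (T.card : ℝ) ≤ Real.log r := by
      rcases Nat.eq_zero_or_pos T.card with h0 | h0
      · rw [h0]; simpa using hlr
      · exact Real.log_le_log (by exact_mod_cast h0) (by exact_mod_cast hT)
    have h3 : 0 ≤ Real.log (T.card : ℝ) := Real.log_natCast_nonneg _
    nlinarith
  have hb : w' * Real.log ((Tᶜ : Finset α).card : ℝ) ≤ δ * Real.log (Fintype.card α) := by
    have h3 : 0 ≤ Real.log ((Tᶜ : Finset α).card : ℝ) := Real.log_natCast_nonneg _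
    have h2 : Real.log ((Tᶜ : Finset α).card : ℝ) ≤ Real.log (Fintype.card α) := by
      rcases Nat.eq_zero_or_pos (Tᶜ : Finset α).card with h0 | h0
      · rw [h0]; simpa using Real.log_natCast_nonneg (Fintype.card α)
      · exact Real.log_le_log (by exact_mod_cast h0) (by exact_mod_cast Finset.card_le_univ _)
    exact mul_le_mul hδ' h2 h3 hδ
  have hc : Real.negMulLog w + Real.negMulLog w' ≤ Real.log 2 := by
    have h2 := Real.binEntropy_le_log_two (p := w)
    rw [Real.binEntropy_eq_negMulLog_add_negMulLog_one_sub] at h2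
    have h3 : w' = 1 - w := by linarith
    rw [h3]; exact h2
  have h4 := ent_finset p T hp
  have h5 := ent_finset p Tᶜ hp
  rw [← hw] at h4
  rw [← hw'] at h5
  rw [← Finset.sum_add_sum_compl T]
  linarith

end Pool.Agent.K6.H16.AL.ENT
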