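import Pool.Agent.K6.H16.AL.Stm

set_option autoImplicit false

set_option linter.unusedSectionVars false

open scoped BigOperators Matrix ComplexOrder
open Finset

namespace Pool.Agent.K6.H16.AL.EY

variable {α β : Type} [Fintype α] [DecidableEq α] [Fintype β] [DecidableEq β]

/-- a column as a vector -/
noncomputable def col (M : Matrix α β ℂ) (b : β) : EuclideanSpace ℂ α := WithLp.toLp 2 fun a => M a b

theorem norm_col (M : Matrix α β ℂ) (b : β) : ‖col M b‖ ^ 2 = ∑ a, ‖M a b‖ ^ 2 := by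
  rw [EuclideanSpace.norm_sq_eq]
  rfl

theorem col_sub (M N : Matrix α β ℂ) (b : β) : col (M - N) b = col M b - col N b := rfl

theorem col_mem (N : Matrix α β ℂ) (b : β) : col N b ∈ LinearMap.range (Matrix.toEuclideanLin N) := by
  refine ⟨EuclideanSpace.single b 1, ?_⟩
  ext a
  simp [col, Matrix.toEuclideanLin]

theorem inner_col (M : Matrix α β ℂ) (f : EuclideanSpace ℂ α) (b : β) :
    inner ℂ f (col M b) = ∑ a, M a b * star (f a) := by
  rw [EuclideanSpace.inner_eq_star_dotProduct]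
  rfl

theorem quad (M : Matrix α β ℂ) (f : EuclideanSpace ℂ α) :
    inner ℂ f (Matrix.toEuclideanLin (M * Mᴴ) f) = ((∑ b, ‖inner ℂ f (col M b)‖ ^ 2 : ℝ) : ℂ) := by
  rw [EuclideanSpace.inner_eq_star_dotProduct]
  have h1 : WithLp.ofLp (Matrix.toEuclideanLin (M * Mᴴ) f) = M *ᵥ (Mᴴ *ᵥ (WithLp.ofLp f)) := by
    rw [Matrix.mulVec_mulVec]; rfl
  rw [h1]
  have h2 : (M *ᵥ (Mᴴ *ᵥ (WithLp.ofLp f))) ⬝ᵥ star (WithLp.ofLp f) =
      ∑ b, (Mᴴ *ᵥ (WithLp.ofLp f)) b * ∑ a, M a b * star (f a) := by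
    unfold dotProduct
    have : ∀ a, (M *ᵥ (Mᴴ *ᵥ (WithLp.ofLp f))) a * star (WithLp.ofLp f) a =
        ∑ b, (Mᴴ *ᵥ (WithLp.ofLp f)) b * (M a b * star (f a)) := by
      intro a
      rw [Matrix.mulVec, dotProduct, Finset.sum_mul]
      exact Finset.sum_congr rfl fun b _ => by rw [Pi.star_apply]; ring
    rw [Finset.sum_congr rfl fun a _ => this a, Finset.sum_comm]
    exact Finset.sum_congr rfl fun b _ => by rw [Finset.mul_sum]
  rw [h2]
  push_cast
  refine Finset.sum_congr rfl fun b _ => ?_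
  have h3 : (Mᴴ *ᵥ (WithLp.ofLp f)) b = star (∑ a, M a b * star (f a)) := by
    rw [Matrix.mulVec, dotProduct, star_sum]
    exact Finset.sum_congr rfl fun a _ => by
      rw [Matrix.conjTranspose_apply, star_mul', star_star]
  rw [h3, ← inner_col, Complex.star_def, Complex.conj_mul']

theorem quad2 (M : Matrix α β ℂ) (hM : (M * Mᴴ).IsHermitian) (f : EuclideanSpace ℂ α) :
    inner ℂ f (Matrix.toEuclideanLin (M * Mᴴ) f) =
      ((∑ i, hM.eigenvalues i * ‖inner ℂ (hM.eigenvectorBasis i) f‖ ^ 2 : ℝ) : ℂ) := by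
  rw [← hM.eigenvectorBasis.sum_inner_mul_inner]
  push_cast
  refine Finset.sum_congr rfl fun i _ => ?_
  have hs : (Matrix.toEuclideanLin (M * Mᴴ)).IsSymmetric := Matrix.isHermitian_iff_isSymmetric.1 hM
  have h1 : Matrix.toEuclideanLin (M * Mᴴ) (hM.eigenvectorBasis i) =
      (hM.eigenvalues i : ℂ) • hM.eigenvectorBasis i := by
    have h := hM.mulVec_eigenvectorBasis i
    ext a
    have := congrFun h a
    simpa [Matrix.toEuclideanLin] using this
  rw [← hs, h1, inner_smul_left]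
  have h2 : inner ℂ f (hM.eigenvectorBasis i) = star (inner ℂ (hM.eigenvectorBasis i) f) :=
    (inner_conj_symm f (hM.eigenvectorBasis i)).symm
  have h3 : star (inner ℂ (hM.eigenvectorBasis i) f) * inner ℂ (hM.eigenvectorBasis i) f =
      (‖inner ℂ (hM.eigenvectorBasis i) f‖ : ℂ) ^ 2 := by
    rw [Complex.star_def, Complex.conj_mul']
  rw [h2, Complex.conj_ofReal, ← h3]
  ring

theorem order (lam q : α → ℝ) (T : Finset α) (t : ℝ) (ht : 0 ≤ t) (h1 : ∀ i ∈ T, t ≤ lam i)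
    (h2 : ∀ i ∈ Tᶜ, lam i ≤ t) (hq0 : ∀ i, 0 ≤ q i) (hq1 : ∀ i, q i ≤ 1)
    (hs : ((Tᶜ).card : ℝ) ≤ ∑ i, q i) : ∑ i ∈ Tᶜ, lam i ≤ ∑ i, lam i * q i := by
  have e1 : ∑ i, lam i * q i = ∑ i ∈ T, lam i * q i + ∑ i ∈ Tᶜ, lam i * q i :=
    (Finset.sum_add_sum_compl T _).symm
  have e2 : ∑ i, q i = ∑ i ∈ T, q i + ∑ i ∈ Tᶜ, q i := (Finset.sum_add_sum_compl T _).symm
  have a1 : t * ∑ i ∈ T, q i ≤ ∑ i ∈ T, lam i * q i := by
    rw [Finset.mul_sum]
    exact Finset.sum_le_sum fun i hi => mul_le_mul_of_nonneg_right (h1 i hi) (hq0 i)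
  have a2 : ∑ i ∈ Tᶜ, lam i - ∑ i ∈ Tᶜ, lam i * q i ≤ t * (((Tᶜ).card : ℝ) - ∑ i ∈ Tᶜ, q i) := by
    have : ∑ i ∈ Tᶜ, lam i - ∑ i ∈ Tᶜ, lam i * q i = ∑ i ∈ Tᶜ, lam i * (1 - q i) := by
      rw [← Finset.sum_sub_distrib]
      exact Finset.sum_congr rfl fun i _ => by ring
    rw [this]
    have h3 : t * (((Tᶜ).card : ℝ) - ∑ i ∈ Tᶜ, q i) = ∑ i ∈ Tᶜ, t * (1 - q i) := by
      rw [← Finset.mul_sum, Finset.sum_sub_distrib]
      simp
    rw [h3]
    exact Finset.sum_le_sum fun i hi => mul_le_mul_of_nonneg_right (h2 i hi) (by linarith [hq1 i])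
  nlinarith [mul_nonneg ht (sub_nonneg.2 hs)]

end Pool.Agent.K6.H16.AL.EY

namespace Pool.Agent.K6.H16.AL
open EY

theorem ey : S_EY := by
  intro α β _ _ _ _ M N hM r hN
  classical
  let W : Submodule ℂ (EuclideanSpace ℂ α) := LinearMap.range (Matrix.toEuclideanLin N)
  have hW : Module.finrank ℂ W ≤ r := by
    have := Matrix.rank_eq_finrank_range_toLin N (PiLp.basisFun 2 ℂ α) (PiLp.basisFun 2 ℂ β)
    rw [← Matrix.toEuclideanLin_eq_toLin] at this
    rw [← this]; exact hN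
  have hdim : Module.finrank ℂ W + Module.finrank ℂ Wᗮ = Fintype.card α := by
    rw [Submodule.finrank_add_finrank_orthogonal, finrank_euclideanSpace]
  let f := stdOrthonormalBasis ℂ Wᗮ
  have hf : Orthonormal ℂ fun j => ((f j : Wᗮ) : EuclideanSpace ℂ α) :=
    f.orthonormal.comp_linearIsometry Wᗮ.subtypeₗᵢ
  let e := hM.eigenvectorBasis
  let q : α → ℝ := fun i => ∑ j, ‖inner ℂ (e i) ((f j : Wᗮ) : EuclideanSpace ℂ α)‖ ^ 2
  have hq0 : ∀ i, 0 ≤ q i := fun i => Finset.sum_nonneg fun j _ => by positivity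
  have hq1 : ∀ i, q i ≤ 1 := by
    intro i
    have h1 := hf.sum_inner_products_le (e i) (s := Finset.univ)
    have h2 : ‖e i‖ = 1 := e.orthonormal.1 i
    rw [h2] at h1
    calc q i = ∑ j, ‖inner ℂ ((f j : Wᗮ) : EuclideanSpace ℂ α) (e i)‖ ^ 2 :=
          Finset.sum_congr rfl fun j _ => by rw [norm_inner_symm]
      _ ≤ 1 := by simpa using h1
  have hqs : ∑ i, q i = Module.finrank ℂ Wᗮ := by
    simp only [q]
    rw [Finset.sum_comm]
    have : ∀ j, ∑ i, ‖inner ℂ (e i) ((f j : Wᗮ) : EuclideanSpace ℂ α)‖ ^ 2 = 1 := by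
      intro j
      rw [e.sum_sq_norm_inner_right, hf.1 j]; norm_num
    rw [Finset.sum_congr rfl fun j _ => this j]
    simp
  -- the key inequality
  have key : ∑ i, hM.eigenvalues i * q i ≤ ∑ a, ∑ b, ‖M a b - N a b‖ ^ 2 := by
    have k1 : ∑ a, ∑ b, ‖M a b - N a b‖ ^ 2 = ∑ b, ‖col (M - N) b‖ ^ 2 := by
      rw [Finset.sum_comm]
      exact Finset.sum_congr rfl fun b _ => by rw [norm_col]; rfl
    have k2 : ∀ b, ∑ j, ‖inner ℂ ((f j : Wᗮ) : EuclideanSpace ℂ α) (col M b)‖ ^ 2 ≤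
        ‖col (M - N) b‖ ^ 2 := by
      intro b
      have h1 := hf.sum_inner_products_le (col (M - N) b) (s := Finset.univ)
      refine le_trans (le_of_eq ?_) h1
      refine Finset.sum_congr rfl fun j _ => ?_
      have h2 : inner ℂ ((f j : Wᗮ) : EuclideanSpace ℂ α) (col N b) = 0 :=
        (Submodule.mem_orthogonal' W _).1 (f j).2 _ (col_mem N b)
      rw [col_sub, inner_sub_right, h2, sub_zero]
    have k3 : ∑ i, hM.eigenvalues i * q i =
        ∑ j, ∑ b, ‖inner ℂ ((f j : Wᗮ) : EuclideanSpace ℂ α) (col M b)‖ ^ 2 := by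
      have : ∀ j, ∑ b, ‖inner ℂ ((f j : Wᗮ) : EuclideanSpace ℂ α) (col M b)‖ ^ 2 =
          ∑ i, hM.eigenvalues i * ‖inner ℂ (e i) ((f j : Wᗮ) : EuclideanSpace ℂ α)‖ ^ 2 := by
        intro j
        have h1 := quad M ((f j : Wᗮ) : EuclideanSpace ℂ α)
        rw [quad2 M hM] at h1
        exact (Complex.ofReal_injective h1).symm
      rw [Finset.sum_congr rfl fun j _ => this j, Finset.sum_comm]
      exact Finset.sum_congr rfl fun i _ => by rw [Finset.mul_sum]
    rw [k3, k1, Finset.sum_comm]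
    exact Finset.sum_le_sum fun b _ => k2 b
  by_cases hr : r < Fintype.card α
  swap
  · refine ⟨Finset.univ, by simpa using hr, ?_⟩
    simp only [Finset.compl_univ, Finset.sum_empty]
    exact Finset.sum_nonneg fun a _ => Finset.sum_nonneg fun b _ => by positivity
  let eq : α ≃ Fin (Fintype.card α) := (Fintype.equivOfCardEq (Fintype.card_fin _)).symm
  have heq : ∀ i, hM.eigenvalues i = hM.eigenvalues₀ (eq i) := fun i => rfl
  let T : Finset α := Finset.univ.filter fun i => (eq i : ℕ) < r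
  have hT : T.card = r := by
    have h1 : T = (Finset.univ.filter fun k : Fin (Fintype.card α) => (k : ℕ) < r).map
        eq.symm.toEmbedding := by
      ext i
      simp [T]
    rw [h1, Finset.card_map]
    have h2 : (Finset.univ.filter fun k : Fin (Fintype.card α) => (k : ℕ) < r) =
        Finset.Iio (⟨r, hr⟩ : Fin (Fintype.card α)) := by
      ext k; simp [Fin.lt_def]
    rw [h2, Fin.card_Iio]
  refine ⟨T, hT.le, le_trans (order _ q T (hM.eigenvalues₀ ⟨r, hr⟩) ?_ ?_ ?_ hq0 hq1 ?_) key⟩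
  · have h1 := (Matrix.posSemidef_self_mul_conjTranspose M).eigenvalues_nonneg (eq.symm ⟨r, hr⟩)
    have h2 := heq (eq.symm ⟨r, hr⟩)
    rw [Equiv.apply_symm_apply] at h2
    rw [← h2]
    exact h1
  · intro i hi
    rw [heq]
    apply hM.eigenvalues₀_antitone
    have : (eq i : ℕ) < r := by simpa [T] using hi
    exact Fin.le_def.2 this.le
  · intro i hi
    rw [heq]
    apply hM.eigenvalues₀_antitone
    have : ¬ (eq i : ℕ) < r := by simpa [T] using hi
    exact Fin.le_def.2 (not_lt.1 this)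
  · rw [hqs, Finset.card_compl, hT]
    have : Fintype.card α - r ≤ Module.finrank ℂ Wᗮ := by omega
    exact_mod_cast this

end Pool.Agent.K6.H16.AL
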