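import Pool.Agent.K6.H16.AL.Stm

/-! # Piece PRB: the eigenvalues of the reduced density matrix (helper27) -/

set_option autoImplicit false

open scoped BigOperators Matrix ComplexOrder
open Finset Pool.Agent.TH235.PP

namespace Pool.Agent.K6.H16.AL.PRB

variable {V : Type} [Fintype V] [DecidableEq V] {d : ℕ}

theorem sum_cutM (A : Finset V) (χ : (V → Fin d) → ℂ) :
    ∑ a, ∑ b, ‖cutM A χ a b‖ ^ 2 = normSq χ := by
  rw [← Fintype.sum_prod_type' (fun a b => ‖cutM A χ a b‖ ^ 2)]
  unfold normSq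
  rw [← Equiv.sum_comp (Equiv.piEquivPiSubtypeProd (fun v => v ∈ A) (fun _ => Fin d)).symm]
  rfl

omit [Fintype V] in
theorem cutM_sub (A : Finset V) (ψ φ : (V → Fin d) → ℂ) (a : {v : V // v ∈ A} → Fin d)
    (b : {v : V // v ∉ A} → Fin d) :
    cutM A ψ a b - cutM A φ a b = cutM A (ψ - φ) a b := rfl

theorem prb : S_PRB := by
  intro V _ _ d ψ φ A
  refine ⟨fun i => ?_, fun hψ => ?_, ?_⟩
  · exact (Matrix.posSemidef_self_mul_conjTranspose (cutM A ψ)).eigenvalues_nonneg i
  · have h1 := (rho_herm A ψ).trace_eq_sum_eigenvalues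
    have h2 : (rho A ψ).trace = ((normSq ψ : ℝ) : ℂ) := by
      rw [← sum_cutM A ψ]
      unfold rho Matrix.trace
      push_cast
      refine Finset.sum_congr rfl fun a _ => ?_
      rw [Matrix.diag_apply, Matrix.mul_apply]
      refine Finset.sum_congr rfl fun b _ => ?_
      rw [Matrix.conjTranspose_apply, Complex.star_def, Complex.mul_conj, Complex.normSq_eq_norm_sq]
      push_cast
      rfl
    rw [h2, hψ] at h1
    have h3 : (((∑ i, (rho_herm A ψ).eigenvalues i : ℝ)) : ℂ) = ((1 : ℝ) : ℂ) := by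
      rw [h1]
      push_cast
      rfl
    exact_mod_cast h3
  · have h : ∀ (a : {v : V // v ∈ A} → Fin d) (b : {v : V // v ∉ A} → Fin d),
        ‖cutM A ψ a b - cutM A φ a b‖ ^ 2 = ‖cutM A (φ - ψ) a b‖ ^ 2 := by
      intro a b
      rw [← norm_neg, neg_sub, cutM_sub]
    simp only [h]
    exact sum_cutM A (φ - ψ)

end Pool.Agent.K6.H16.AL.PRB
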