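import Pool.Agent.K6.H16.AL.Stm

/-!
# TRV (written by helper15 for call16a)
-/

set_option autoImplicit false

open scoped BigOperators Matrix
open Finset Pool.Agent.TH235.PP

namespace Pool.Agent.K6.H16.AL.TRV

/-- the sum of the squares of the entries of the cut matrix -/
theorem sum_cut {V : Type} [Fintype V] [DecidableEq V] {d : ℕ} (A : Finset V)
    (ψ : (V → Fin d) → ℂ) : ∑ a, ∑ b, ‖cutM A ψ a b‖ ^ 2 = normSq ψ := by
  unfold normSq
  rw [← Fintype.sum_prod_type']
  rw [← (Equiv.piEquivPiSubtypeProd (fun v => v ∈ A) (fun _ : V => Fin d)).sum_comp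
    (fun x : ({v : V // v ∈ A} → Fin d) × ({v : V // v ∉ A} → Fin d) =>
      ‖cutM A ψ x.1 x.2‖ ^ 2)]
  refine Finset.sum_congr rfl fun s _ => ?_
  unfold cutM
  congr 3
  funext v
  by_cases h : v ∈ A
  · simp [h, Equiv.piEquivPiSubtypeProd]
  · simp [h, Equiv.piEquivPiSubtypeProd]

/-- eigenvalues of a Hermitian idempotent -/
theorem eig_idem {n : Type} [Fintype n] [DecidableEq n] (R : Matrix n n ℂ) (hR : R.IsHermitian)
    (h : R * R = R) (i : n) : hR.eigenvalues i = 0 ∨ hR.eigenvalues i = 1 := by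
  have h1 : R *ᵥ (hR.eigenvectorBasis i).ofLp =
      (hR.eigenvalues i : ℂ) • (hR.eigenvectorBasis i).ofLp := by
    have := hR.mulVec_eigenvectorBasis i
    rw [this]
    rfl
  have h2 : (hR.eigenvectorBasis i).ofLp ≠ 0 := by
    intro h0
    have h1 : hR.eigenvectorBasis i = 0 := by
      have : hR.eigenvectorBasis i = WithLp.toLp 2 ((hR.eigenvectorBasis i).ofLp) := rfl
      rw [this, h0]; rfl
    have h2 := hR.eigenvectorBasis.norm_eq_one i
    rw [h1, norm_zero] at h2
    exact zero_ne_one h2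
  have h3 : R *ᵥ (R *ᵥ (hR.eigenvectorBasis i).ofLp) = R *ᵥ (hR.eigenvectorBasis i).ofLp := by
    rw [Matrix.mulVec_mulVec, h]
  rw [h1, Matrix.mulVec_smul, h1, smul_smul] at h3
  have h4 : ((hR.eigenvalues i : ℂ) * hR.eigenvalues i - hR.eigenvalues i) •
      (hR.eigenvectorBasis i).ofLp = 0 := by
    rw [sub_smul, h3, sub_self]
  rcases smul_eq_zero.1 h4 with h5 | h5
  · have h6 : hR.eigenvalues i * hR.eigenvalues i - hR.eigenvalues i = 0 := by
      exact_mod_cast h5
    have h7 : hR.eigenvalues i * (hR.eigenvalues i - 1) = 0 := by linarith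
    rcases mul_eq_zero.1 h7 with h8 | h8
    · exact Or.inl h8
    · exact Or.inr (by linarith)
  · exact absurd h5 h2

theorem ent_zero {V : Type} [Fintype V] [DecidableEq V] {d : ℕ} (A : Finset V)
    (ψ : (V → Fin d) → ℂ) (h : rho A ψ * rho A ψ = rho A ψ) : ent A ψ = 0 := by
  unfold ent
  refine Finset.sum_eq_zero fun i _ => ?_
  rcases eig_idem (rho A ψ) (rho_herm A ψ) h i with h1 | h1
  · rw [h1]; simp
  · rw [h1]; simp

theorem mul_star_self (z : ℂ) : z * star z = ((‖z‖ ^ 2 : ℝ) : ℂ) := by
  rw [Complex.star_def, Complex.mul_conj, Complex.normSq_eq_norm_sq]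

theorem shift_inv {L : ℕ} [NeZero L] (P : ZMod L → Prop) (h : ∀ x, P x ↔ P (x + 1)) :
    ∀ x y, P x ↔ P y := by
  have h1 : ∀ (n : ℕ) (x : ZMod L), P x ↔ P (x + n) := by
    intro n
    induction n with
    | zero => intro x; simp
    | succ n ih =>
      intro x
      rw [ih x, h (x + n)]
      push_cast
      rw [add_assoc]
  intro x y
  have h2 : y = x + ((y - x).val : ℕ) := by
    rw [ZMod.natCast_zmod_val]
    ring
  rw [h2]
  exact h1 _ x

theorem trv : S_TRV := by
  constructor
  · intro L _ A hA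
    unfold bdry at hA
    have h1 : ∀ x : Site L, (x ∈ A ↔ (x.1 + 1, x.2) ∈ A) := by
      intro x
      by_contra hc
      have : (univ.filter fun x : Site L => ¬ (x ∈ A ↔ (x.1 + 1, x.2) ∈ A)).card ≠ 0 :=
        Finset.card_ne_zero.2 ⟨x, by simpa using hc⟩
      omega
    have h2 : ∀ x : Site L, (x ∈ A ↔ (x.1, x.2 + 1) ∈ A) := by
      intro x
      by_contra hc
      have : (univ.filter fun x : Site L => ¬ (x ∈ A ↔ (x.1, x.2 + 1) ∈ A)).card ≠ 0 :=
        Finset.card_ne_zero.2 ⟨x, by simpa using hc⟩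
      omega
    have h3 : ∀ x y : Site L, (x ∈ A ↔ y ∈ A) := by
      intro x y
      have h4 := shift_inv (fun a : ZMod L => ((a, x.2) : Site L) ∈ A) (fun a => h1 (a, x.2)) x.1 y.1
      have h5 := shift_inv (fun b : ZMod L => ((y.1, b) : Site L) ∈ A) (fun b => h2 (y.1, b)) x.2 y.2
      exact h4.trans h5
    rcases A.eq_empty_or_nonempty with h | ⟨a, ha⟩
    · exact Or.inl h
    · right
      ext y
      simp only [mem_univ, iff_true]
      exact (h3 a y).1 ha
  · intro V _ _ d ψ hψ
    constructor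
    · apply ent_zero
      have hsub : Subsingleton ({v : V // v ∈ (∅ : Finset V)} → Fin d) := by
        have : IsEmpty {v : V // v ∈ (∅ : Finset V)} := ⟨fun v => absurd v.2 (Finset.notMem_empty _)⟩
        exact ⟨fun a b => funext fun v => (this.false v).elim⟩
      have h1 : rho ∅ ψ = 1 := by
        ext a b
        have hab : a = b := Subsingleton.elim _ _
        subst hab
        rw [Matrix.one_apply_eq]
        unfold rho
        rw [Matrix.mul_apply]
        have h2 : ∀ j, cutM ∅ ψ a j * (cutM ∅ ψ)ᴴ j a = ((‖cutM ∅ ψ a j‖ ^ 2 : ℝ) : ℂ) := by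
          intro j
          rw [Matrix.conjTranspose_apply, mul_star_self]
        rw [Finset.sum_congr rfl fun j _ => h2 j, ← Complex.ofReal_sum]
        have h3 := sum_cut ∅ ψ
        rw [hψ] at h3
        rw [Fintype.sum_eq_single a (fun x hx => absurd (Subsingleton.elim x a) hx)] at h3
        rw [h3]
        simp
      rw [h1, one_mul]
    · apply ent_zero
      have hsub : Subsingleton ({v : V // v ∉ (univ : Finset V)} → Fin d) := by
        have : IsEmpty {v : V // v ∉ (univ : Finset V)} := ⟨fun v => v.2 (Finset.mem_univ _)⟩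
        exact ⟨fun a b => funext fun v => (this.false v).elim⟩
      have h1 : (cutM univ ψ)ᴴ * cutM univ ψ = 1 := by
        ext a b
        have hab : a = b := Subsingleton.elim _ _
        subst hab
        rw [Matrix.one_apply_eq, Matrix.mul_apply]
        have h2 : ∀ j, (cutM univ ψ)ᴴ a j * cutM univ ψ j a =
            ((‖cutM univ ψ j a‖ ^ 2 : ℝ) : ℂ) := by
          intro j
          rw [Matrix.conjTranspose_apply, mul_comm, mul_star_self]
        rw [Finset.sum_congr rfl fun j _ => h2 j, ← Complex.ofReal_sum]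
        have h3 := sum_cut univ ψ
        rw [hψ, Finset.sum_comm] at h3
        rw [Fintype.sum_eq_single a (fun x hx => absurd (Subsingleton.elim x a) hx)] at h3
        rw [h3]
        simp
      unfold rho
      rw [Matrix.mul_assoc, ← Matrix.mul_assoc ((cutM univ ψ)ᴴ), h1, Matrix.one_mul]

end Pool.Agent.K6.H16.AL.TRV
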