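import Pool.Agent.TH235.PP.Spec

/-!
# Area law with a logarithm for states approximated by PEPS: statements (seat helper16)
-/

set_option autoImplicit false

open scoped BigOperators Matrix
open Finset Pool.Agent.TH235.PP

namespace Pool.Agent.K6.H16.AL

/-- the amplitudes of `ψ` as a matrix whose rows are the configurations on `A` and whose columns are
the configurations on the complement of `A` -/
def cutM {V : Type} [DecidableEq V] {d : ℕ} (A : Finset V) (ψ : (V → Fin d) → ℂ) :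
    Matrix ({v : V // v ∈ A} → Fin d) ({v : V // v ∉ A} → Fin d) ℂ :=
  fun a b => ψ fun v => if h : v ∈ A then a ⟨v, h⟩ else b ⟨v, h⟩

section ent

variable {V : Type} [Fintype V] [DecidableEq V] {d : ℕ}

/-- the reduced density matrix on `A` of the unit vector `ψ` -/
noncomputable def rho (A : Finset V) (ψ : (V → Fin d) → ℂ) :
    Matrix ({v : V // v ∈ A} → Fin d) ({v : V // v ∈ A} → Fin d) ℂ :=
  cutM A ψ * (cutM A ψ)ᴴ

theorem rho_herm (A : Finset V) (ψ : (V → Fin d) → ℂ) : (rho A ψ).IsHermitian :=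
  Matrix.isHermitian_mul_conjTranspose_self _

/-- the von Neumann entropy of the reduced density matrix on `A` -/
noncomputable def ent (A : Finset V) (ψ : (V → Fin d) → ℂ) : ℝ :=
  ∑ i, Real.negMulLog ((rho_herm A ψ).eigenvalues i)

end ent

/-- the number of edges of the torus between `A` and its complement -/
def bdry {L : ℕ} [NeZero L] (A : Finset (Site L)) : ℕ :=
  (univ.filter fun x : Site L => ¬ (x ∈ A ↔ (x.1 + 1, x.2) ∈ A)).card +
    (univ.filter fun x : Site L => ¬ (x ∈ A ↔ (x.1, x.2 + 1) ∈ A)).card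

/-- RK: the Schmidt rank of a PEPS -/
def S_RK : Prop :=
  ∀ (d D L : ℕ) [NeZero L] (φ : (Site L → Fin d) → ℂ), IsPEPS D φ → ∀ A : Finset (Site L),
    (cutM A φ).rank ≤ D ^ bdry A

/-- EY: the distance to the matrices of rank `r` (Eckart-Young, Ky Fan) -/
def S_EY : Prop :=
  ∀ {α β : Type} [Fintype α] [DecidableEq α] [Fintype β] [DecidableEq β]
    (M N : Matrix α β ℂ) (hM : (M * Mᴴ).IsHermitian) (r : ℕ), N.rank ≤ r →
    ∃ T : Finset α, T.card ≤ r ∧ ∑ i ∈ Tᶜ, hM.eigenvalues i ≤ ∑ a, ∑ b, ‖M a b - N a b‖ ^ 2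

/-- ENT: the entropy of a probability vector with a small tail -/
def S_ENT : Prop :=
  ∀ {α : Type} [Fintype α] [DecidableEq α] (p : α → ℝ) (T : Finset α) (r : ℕ) (δ : ℝ),
    (∀ i, 0 ≤ p i) → ∑ i, p i = 1 → T.card ≤ r → 1 ≤ r → 0 ≤ δ → ∑ i ∈ Tᶜ, p i ≤ δ →
    ∑ i, Real.negMulLog (p i) ≤ Real.log r + δ * Real.log (Fintype.card α) + Real.log 2

/-- TRV: sets without boundary -/
def S_TRV : Prop :=
  (∀ (L : ℕ) [NeZero L] (A : Finset (Site L)), bdry A = 0 → A = ∅ ∨ A = univ) ∧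
  ∀ {V : Type} [Fintype V] [DecidableEq V] (d : ℕ) (ψ : (V → Fin d) → ℂ), normSq ψ = 1 →
    ent ∅ ψ = 0 ∧ ent univ ψ = 0

/-- PRB: the eigenvalues of the reduced density matrix -/
def S_PRB : Prop :=
  ∀ {V : Type} [Fintype V] [DecidableEq V] (d : ℕ) (ψ φ : (V → Fin d) → ℂ) (A : Finset V),
    (∀ i, 0 ≤ (rho_herm A ψ).eigenvalues i) ∧
    (normSq ψ = 1 → ∑ i, (rho_herm A ψ).eigenvalues i = 1) ∧
    ∑ a, ∑ b, ‖cutM A ψ a b - cutM A φ a b‖ ^ 2 = normSq (φ - ψ)

end Pool.Agent.K6.H16.AL
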